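import Pool.Agent.Lib.MP_b5021c_nt.O4V.H21.Typ

/-!
# MP_b5021c_nt, all `θ`, K ODD, (O1-iv), row O4_SF1: `V''` has no small factor (`g = 1`)
-/

namespace Pool.Agent.B5.O4H21

open scoped LaurentPolynomial
open Polynomial
open Pool.Agent.B5.SFH27 (evU evU_toLaurent evU_T)

set_option linter.unusedSectionVars false

variable {P L : Type} [Fintype P] [DecidableEq P] [AddCommGroup L] [Module.Free ℤ L]
  [Module.Finite ℤ L] {phi : L →+ (P → ℤ)} {D : AO ℤ L}

theorem mem_US_of {O : Type} [CommRing O] {D : AO O L} {eta : (RO O)ˣ} {S a : L}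
    (h : vco eta S D a ≠ 0) : a ∈ US eta S D :=
  ⟨1, one_ne_zero, by
    rw [one_smul]
    exact Submodule.subset_span (Or.inr h)⟩

/-- A ray, from injectivity modulo `b`, `S0`, `S1`. -/
theorem ray_of (dd : DD phi D) {S0 S1 b : L} {i0 i1 : P} (h00 : phi S0 i0 = 1)
    (h10 : phi S1 i0 = 0) (h01 : phi S0 i1 = 0) (h11 : phi S1 i1 = 1) (hb0 : phi b i0 = 0)
    (hb1 : phi b i1 = 0) (hbb : Bin phi b) (hbn : b ≠ 0) (hDb : D.coeff b ≠ 0)
    (hinj : ∀ y : L, (∀ i, phi S0 i = 0 → phi S1 i = 0 → phi b i = 0 → phi y i = 0) →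
      ∃ k l m : ℤ, y = k • b + l • S0 + m • S1) : Ray D b := by
  classical
  set J : Finset P := Finset.univ.filter fun i => phi S0 i = 0 ∧ phi S1 i = 0 ∧ phi b i = 0
    with hJ
  refine ⟨hDb, hbn, ∑ i ∈ J, co phi i + co phi i0 + co phi i1, ?_, ?_⟩
  · rw [AddMonoidHom.add_apply, AddMonoidHom.add_apply, AddMonoidHom.finsetSum_apply]
    have h1 : ∀ i ∈ J, co phi i b = 0 := by
      intro i hi
      rw [hJ, Finset.mem_filter] at hi
      exact hi.2.2.2
    rw [Finset.sum_eq_zero h1]
    change 0 + phi b i0 + phi b i1 = 0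
    rw [hb0, hb1]
    norm_num
  · intro a ha ha0 hab
    have hbin := dd.bin a ha
    have hnn : ∀ i, 0 ≤ co phi i a := by
      intro i
      change 0 ≤ phi a i
      rcases hbin i with h | h <;> rw [h]; norm_num
    rw [AddMonoidHom.add_apply, AddMonoidHom.add_apply, AddMonoidHom.finsetSum_apply]
    have hs := Finset.sum_nonneg fun i (_ : i ∈ J) => hnn i
    by_contra hle
    have n0 := hnn i0
    have n1 := hnn i1
    have hs0 : ∑ i ∈ J, co phi i a = 0 := by linarith
    have hi0 : phi a i0 = 0 := by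
      change ¬ 0 < ∑ i ∈ J, co phi i a + phi a i0 + phi a i1 at hle
      change 0 ≤ phi a i0 at n0
      change 0 ≤ phi a i1 at n1
      linarith
    have hi1 : phi a i1 = 0 := by
      change ¬ 0 < ∑ i ∈ J, co phi i a + phi a i0 + phi a i1 at hle
      change 0 ≤ phi a i0 at n0
      change 0 ≤ phi a i1 at n1
      linarith
    obtain ⟨k, l, m, hk⟩ := hinj a (by
      intro i h2 h3 h4
      have h5 := (Finset.sum_eq_zero_iff_of_nonneg fun i (_ : i ∈ J) => hnn i).1 hs0 i
      exact h5 (by rw [hJ, Finset.mem_filter]; exact ⟨Finset.mem_univ _, h2, h3, h4⟩))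
    have e0 : phi a i0 = phi (k • b + l • S0 + m • S1) i0 := by rw [← hk]
    have e1 : phi a i1 = phi (k • b + l • S0 + m • S1) i1 := by rw [← hk]
    simp only [map_add, map_zsmul, Pi.add_apply, Pi.smul_apply, h00, h10, h01, h11, hb0, hb1,
      hi0, hi1, smul_eq_mul, mul_zero, mul_one, zero_add, add_zero] at e0 e1
    rw [← e0, ← e1, zero_smul, zero_smul, add_zero, add_zero] at hk
    -- a port of `b`
    obtain ⟨i, hi⟩ : ∃ i, phi b i = 1 := by
      by_contra hcon
      push Not at hcon
      apply hbn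
      apply dd.inj
      funext i
      rw [map_zero, Pi.zero_apply]
      exact (hbb i).resolve_right (hcon i)
    have h6 := hbin i
    rw [hk, map_zsmul, Pi.smul_apply, hi, smul_eq_mul, mul_one] at h6
    rcases h6 with h7 | h7
    · rw [h7, zero_smul] at hk
      exact ha0 hk
    · rw [h7, one_smul] at hk
      exact hab hk

/-- Row O4_SF1. -/
theorem o4sf1 (hTyp : O4typS) (hRay : O4rayS) (h00 : O4t00S) (h10 : O4t10S) (hn : O4tnS)
    (h01 : O4t01S) (h11 : O4t11S) (hSm : SmallS) (hMco : McoS) (hV : VcoS) : O4sf1S := by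
  classical
  intro P L _ _ _ _ _ phi D q f E a p j eta C S0 S1 e0 e1 i0 h0 T x i1 h1 c n G hK hfr fd hbig
  by_contra hne
  obtain ⟨l, hl⟩ := Finset.nonempty_iff_ne_empty.mpr hne
  have hl2 : ¬ 1 < M ((G l).coeff 0) ∧ ¬ Pure (phO phi S0 i0) T i1 (G l) := by
    unfold snp at hl
    exact (Finset.mem_filter.mp hl).2
  obtain ⟨-, -, hsp⟩ := hSm ℤ P (Ker (co phi i0)) (phO phi S0 i0) (vB phi D S0 e0 i0 h0) T i1
    (ld e1 1) h1 c n G fd l hl2.1
  obtain ⟨b, jj, e, sp⟩ := hsp hl2.2
  obtain ⟨m, i, k, pp, r, ty⟩ := hTyp P L phi D q f E a p j eta 1 C S0 S1 e0 e1 i0 h0 T x i1 h1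
    c n G l b jj e hK fd hbig sp
  have hinj := hRay P L phi D q f E a p j eta 1 C S0 S1 e0 e1 i0 h0 T x i1 h1 c n G l b jj e hK
    hfr fd sp
  obtain ⟨hp1, hp2, hp3, hp4, hp5⟩ := ports (i1 := i1) h0 h1 hK.hT
  obtain ⟨hb0, hb1⟩ := hp5 b
  set bb : L := ((b : Ker (co phi i0)) : L) with hbb
  have dd : DD phi D := hK.k.kc.ko.min.fp.dd
  have hmut := hK.k.mt
  obtain ⟨hdis, -, -, -⟩ := hMco ℤ P L phi D S0 S1 (-e0) (-e1) dd.inj dd.bin hmut
  obtain ⟨w, hw, hw0⟩ := ty.rt
  have hVz : ((1 + X) ^ 2 * f - X * E).coeff 0 = 1 := by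
    rw [coeff_sub, mul_coeff_zero, hK.k.o.f0, mul_coeff_zero, coeff_X_zero, zero_mul, sub_zero,
      pow_two, mul_coeff_zero, coeff_add, coeff_one_zero, coeff_X_zero]
    norm_num
  have hw00 : w ≠ 0 := by
    rintro rfl
    rw [← coeff_zero_eq_aeval_zero', hVz] at hw0
    norm_num at hw0
  have hEne : (aeval w E : ℂ) ≠ 0 := hK.k.ez w hw.le
  set u : ℂˣ := Units.mk0 w hw00 with hu
  have evL : ∀ r : ℤ[X], evU u (toLaurent r) = aeval w r := by
    intro r
    rw [evU_toLaurent, OF40.cpz_aeval]
    rfl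
  have hzw : evU u (LaurentPolynomial.T 1 : RO ℤ) ≠ 0 := by
    rw [evU_T]
    exact zpow_ne_zero _ (Units.ne_zero u)
  -- `e p` does not vanish at `w`
  have hepw : evU u ((e : RO ℤ) * pp) ≠ 0 := by
    intro h2
    have h3 := congrArg (evU u) ty.eA
    rw [map_add, map_neg, map_mul, evL, map_mul, h2, zero_mul, add_zero, map_mul, map_mul, evL,
      hw0, mul_zero, mul_zero] at h3
    rcases mul_eq_zero.mp (neg_eq_zero.mp h3) with h5 | h5
    · exact hzw h5
    · exact hEne h5
  have hpp : pp ≠ 0 := by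
    rintro rfl
    rw [mul_zero, map_zero] at hepw
    exact hepw rfl
  have hr0 : r ≠ 0 := by
    rintro rfl
    have h3 := congrArg (evU u) ty.eB
    rw [mul_zero, zero_mul, add_zero, map_add, evL, hw0, zero_add, map_mul, map_zero, map_pow,
      map_neg] at h3
    rcases mul_eq_zero.mp h3 with h5 | h5
    · exact hepw h5
    · exact pow_ne_zero _ (neg_ne_zero.mpr hzw) h5
  -- the class of `b`
  have key : i = 1 ∨ k = 1 → ∃ u : (RO ℤ)ˣ, r = (u : RO ℤ) * toLaurent f := by
    intro hik
    have hDb : D.coeff bb = r := by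
      rw [ty.nf.c00, if_neg (by omega), zero_add]
    have hrayb : Ray D bb := ray_of dd hp1 hp2 hp3 hp4 hb0 hb1 ty.bin ty.b0
      (by rw [hDb]; exact hr0) hinj
    have binS : ∀ {S : L}, Ray D S → Bin phi S := fun h => dd.bin _ h.1
    have hmem : bb ∈ C := by
      rcases Nat.eq_zero_or_pos i with hi | hi
      · -- outside `U_S0`
        have hk1 : k = 1 := by omega
        have h2 : bb ∉ US (eta S0) S0 D := by
          rw [hK.k.t0]
          intro h3
          have h4 : vco (-e0) S0 D (bb + S1) ≠ 0 := by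
            rw [(hV ℤ P L phi D S0 (-e0) dd.inj dd.bin (binS hmut.r0) hmut.r0.2.1).2.2.1 (bb + S1)
              (by
                intro i'
                rcases ty.out i' with h5 | ⟨h5, -⟩
                · rcases hdis i' with h6 | h6
                  · exact Or.inr h6
                  · left
                    rw [map_add, Pi.add_apply, h5, h6, add_zero]
                · exact Or.inr h5)]
            intro h5
            have c01 := ty.nf.c01
            have c11 := ty.nf.c11
            rw [if_pos ⟨hi, hk1⟩] at c01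
            rw [if_neg (by omega), zero_add] at c11
            have h6 : bb + S1 + S0 = bb + S0 + S1 := by abel
            rw [h6] at h5
            apply hpp
            linear_combination ((-e1 : (RO ℤ)ˣ) : RO ℤ) * h5 - c01 - c11
          have h5 := mem_US_of h4
          have h6 := Submodule.sub_mem _ h5 h3
          rw [add_sub_cancel_left] at h6
          exact hmut.m0 h6
        exact (hK.k.kc.kc.mtl S0 hK.k.m0 bb hrayb h2).1
      · have hi1 : i = 1 := le_antisymm ty.nf.i1 hi
        have h2 : bb ∉ US (eta S1) S1 D := by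
          rw [hK.k.t1]
          intro h3
          have h4 : vco (-e1) S1 D (bb + S0) ≠ 0 := by
            rw [(hV ℤ P L phi D S1 (-e1) dd.inj dd.bin (binS hmut.r1) hmut.r1.2.1).2.2.1 (bb + S0)
              (by
                intro i'
                rcases ty.out i' with h5 | ⟨-, h5⟩
                · rcases hdis i' with h6 | h6
                  · left
                    rw [map_add, Pi.add_apply, h5, h6, add_zero]
                  · exact Or.inr h6
                · exact Or.inr h5)]
            intro h5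
            have c10 := ty.nf.c10
            have c11 := ty.nf.c11
            apply hpp
            rcases Nat.eq_zero_or_pos k with hk | hk
            · rw [if_pos ⟨hi1, hk⟩] at c10
              rw [if_neg (by omega), zero_add] at c11
              linear_combination ((-e0 : (RO ℤ)ˣ) : RO ℤ) * h5 - c10 - c11
            · have hk1 : k = 1 := le_antisymm ty.nf.j1 hk
              rw [if_neg (by omega), zero_sub] at c10
              rw [if_pos ⟨hi1, hk1⟩] at c11
              linear_combination ((-e0 : (RO ℤ)ˣ) : RO ℤ) * h5 - c10 - c11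
          have h5 := mem_US_of h4
          have h6 := Submodule.sub_mem _ h5 h3
          rw [add_sub_cancel_left] at h6
          exact hmut.m1 h6
        exact (hK.k.kc.kc.mtl S1 hK.k.m1 bb hrayb h2).1
    obtain ⟨e', -, hrn⟩ := hK.k.kc.rn bb hmem
    refine ⟨e'⁻¹, ?_⟩
    rw [← hDb, ← hrn.DS, ← mul_assoc, Units.inv_mul, one_mul]
  have hi := ty.nf.i1
  have hk := ty.nf.j1
  rcases Nat.eq_zero_or_pos i with hi0 | hi0
  · subst hi0
    rcases Nat.eq_zero_or_pos k with hk0 | hk0
    · subst hk0
      exact h00 P L phi D q f E a p j eta 1 C S0 S1 e0 e1 i0 h0 T x bb e m pp r hK ty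
    · obtain rfl : k = 1 := le_antisymm hk hk0
      obtain ⟨v, hv⟩ := key (Or.inr rfl)
      rcases Nat.lt_or_ge m 2 with hm | hm
      · obtain rfl : m = 1 := by
          have := ty.m1
          omega
        exact h01 P L phi D q f E a p j eta 1 C S0 S1 e0 e1 i0 h0 T x bb e v pp r hK ty hv
      · exact hn P L phi D q f E a p j eta 1 C S0 S1 e0 e1 i0 h0 T x bb e v m 0 pp r hK ty hv hm
  · obtain rfl : i = 1 := le_antisymm hi hi0
    obtain ⟨v, hv⟩ := key (Or.inl rfl)
    rcases Nat.eq_zero_or_pos k with hk0 | hk0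
    · subst hk0
      exact h10 P L phi D q f E a p j eta 1 C S0 S1 e0 e1 i0 h0 T x bb e v m pp r hK ty hv
    · obtain rfl : k = 1 := le_antisymm hk hk0
      rcases Nat.lt_or_ge m 2 with hm | hm
      · obtain rfl : m = 1 := by
          have := ty.m1
          omega
        exact h11 P L phi D q f E a p j eta C S0 S1 e0 e1 i0 h0 T x bb e v pp r hK ty hv hinj
      · exact hn P L phi D q f E a p j eta 1 C S0 S1 e0 e1 i0 h0 T x bb e v m 1 pp r hK ty hv hm

end Pool.Agent.B5.O4H21
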