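import Pool.Agent.Lib.MP_b5021c_nt.O4V.H21.Mas
import Pool.Agent.Lib.MP_b5021c_nt.KE.H96.Ray

/-!
# MP_b5021c_nt, all `θ`, K ODD, (O1-iv), row O4_TYP: the type of a small factor of `V''`
-/

namespace Pool.Agent.B5.O4H21

open scoped LaurentPolynomial
open Polynomial
open Pool.Agent.B5.SFH27 (evU evU_toLaurent evU_T)

set_option linter.unusedSectionVars false
set_option linter.unusedSimpArgs false

variable {P L : Type} [Fintype P] [DecidableEq P] [AddCommGroup L] [Module.Free ℤ L]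
  [Module.Finite ℤ L] {phi : L →+ (P → ℤ)} {D : AO ℤ L} {S0 S1 : L} {e0 e1 : (RO ℤ)ˣ} {i0 : P}
  {h0 : co phi i0 S0 = 1} {T : Ker (co phi i0)} {i1 : P} {h1 : co (phO phi S0 i0) i1 T = 1}

/-- The coefficients of `V_B`. -/
theorem vB_coeff (dd : DD phi D) (y : Ker (co phi i0)) :
    (vB phi D S0 e0 i0 h0).coeff y =
      D.coeff (y : L) + (ld e0 1 : RO ℤ) * D.coeff ((y : L) + S0) :=
  H47.cl_coeff_bin _ _ _ _ _ (fun a ha => dd.bin a ha i0) y

/-- The coefficients of a closing of `V_B` at `S1`. -/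
theorem vv_coeff (dd : DD phi D) (ddB : DD (phO phi S0 i0) (vB phi D S0 e0 i0 h0))
    (hT : (T : L) = S1) (eta' : (RO ℤ)ˣ) (b : Ker (co (phO phi S0 i0) i1)) :
    (cl (co (phO phi S0 i0) i1) T h1 eta' (vB phi D S0 e0 i0 h0)).coeff b =
      D.coeff ((b : Ker (co phi i0)) : L) +
        (ld e0 1 : RO ℤ) * D.coeff (((b : Ker (co phi i0)) : L) + S0) +
        (eta' : RO ℤ) * (D.coeff (((b : Ker (co phi i0)) : L) + S1) +
          (ld e0 1 : RO ℤ) * D.coeff (((b : Ker (co phi i0)) : L) + S0 + S1)) := by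
  rw [H47.cl_coeff_bin _ _ _ _ _ (fun a ha => ddB.bin a ha i1) b, vB_coeff dd, vB_coeff dd]
  have h2 : (((b : Ker (co phi i0)) + T : Ker (co phi i0)) : L) =
      ((b : Ker (co phi i0)) : L) + S1 := by
    rw [← hT]
    rfl
  rw [h2, add_right_comm ((b : Ker (co phi i0)) : L) S1 S0]

/-- The ports `i0`, `i1` on `S0`, `S1` and on the kernel. -/
theorem ports (h0 : co phi i0 S0 = 1) (h1 : co (phO phi S0 i0) i1 T = 1) (hT : (T : L) = S1) :
    phi S0 i0 = 1 ∧ phi S1 i0 = 0 ∧ phi S0 i1 = 0 ∧ phi S1 i1 = 1 ∧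
    ∀ b : Ker (co (phO phi S0 i0) i1), phi ((b : Ker (co phi i0)) : L) i0 = 0 ∧
      phi ((b : Ker (co phi i0)) : L) i1 = 0 := by
  have h2 : (if phi S0 i1 = 0 then phi (T : L) i1 else 0) = 1 := h1
  have h3 : phi S0 i1 = 0 := by
    by_contra h4
    rw [if_neg h4] at h2
    exact zero_ne_one h2
  rw [if_pos h3, hT] at h2
  have h4 : phi (T : L) i0 = 0 := T.2
  rw [hT] at h4
  refine ⟨h0, h4, h3, h2, fun b => ⟨(b : Ker (co phi i0)).2, ?_⟩⟩
  have h5 : (if phi S0 i1 = 0 then phi ((b : Ker (co phi i0)) : L) i1 else 0) = 0 := b.2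
  rwa [if_pos h3] at h5

theorem neg_mul_inv_ld (e : (RO ℤ)ˣ) :
    (((-e : (RO ℤ)ˣ)) : RO ℤ) * (((ld e 1)⁻¹ : (RO ℤ)ˣ) : RO ℤ) =
      -LaurentPolynomial.T (-1) := by
  have h1 : ((ld e 1 : (RO ℤ)ˣ) : RO ℤ) = LaurentPolynomial.T 1 * (e : RO ℤ) := KE.ld_val e 1
  have h2 : ((ld e 1 : (RO ℤ)ˣ) : RO ℤ) * (((ld e 1)⁻¹ : (RO ℤ)ˣ) : RO ℤ) = 1 := Units.mul_inv _
  have h3 : (LaurentPolynomial.T (-1) : RO ℤ) * LaurentPolynomial.T 1 = 1 := by
    rw [← LaurentPolynomial.T_add, neg_add_cancel, LaurentPolynomial.T_zero]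
  rw [h1] at h2
  rw [Units.val_neg]
  linear_combination (-(LaurentPolynomial.T (-1) : RO ℤ)) * h2 -
    (e : RO ℤ) * (((ld e 1)⁻¹ : (RO ℤ)ˣ) : RO ℤ) * h3 + 
    2 * ((e : RO ℤ) * (((ld e 1)⁻¹ : (RO ℤ)ˣ) : RO ℤ) * h3)

/-- Row O4_TYP. -/
theorem o4typ (hOd : OdtS) (hQs : QsgS) (hNd : Nd3S) (hTz : TzaS) (hFj : FjtS) (hTa : Ta3S)
    (hE1 : E1S) (hMV : MVS) (hMm : MmulS) (hQra : QraS) (hC0 : Coeff0S) (hB5 : B5aS)
    (hMpa : MpaS) (hMnf : MnfS) : O4typS := by
  classical
  intro P L _ _ _ _ _ phi D q f E a p j eta g C S0 S1 e0 e1 i0 h0 T x i1 h1 c n G l b jj e hK fd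
    hbig sp
  have dd : DD phi D := hK.k.kc.ko.min.fp.dd
  have hf0 : ((1 + X) * f).coeff 0 = 1 := by
    rw [mul_coeff_zero, hK.k.o.f0, coeff_add, coeff_one_zero, coeff_X_zero]
    norm_num
  obtain ⟨⟨j', hj, m, hm, sp', hX⟩, w, hw, hw0⟩ := mass_spt hOd hQs hNd hTz hFj hTa hE1 hMV hMm
    hK.dd hK.ray hK.rn hf0 fd hbig sp
  have hE : f - q = X * E := hK.k.eq
  have hVp : (q + X * f) + X * ((1 + X) * f) = (1 + X) ^ 2 * f - X * E := by
    rw [← hE]
    ring
  have hVz : ((1 + X) ^ 2 * f - X * E).coeff 0 = 1 := by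
    rw [coeff_sub, mul_coeff_zero, hK.k.o.f0, mul_coeff_zero, coeff_X_zero, zero_mul, sub_zero,
      pow_two, mul_coeff_zero, coeff_add, coeff_one_zero, coeff_X_zero]
    norm_num
  rw [hVp] at hw0
  have hw00 : w ≠ 0 := by
    rintro rfl
    rw [← coeff_zero_eq_aeval_zero', hVz] at hw0
    norm_num at hw0
  obtain ⟨hp1, hp2, hp3, hp4, hp5⟩ := ports (i1 := i1) h0 h1 hK.hT
  obtain ⟨hb0, hb1⟩ := hp5 b
  set bb : L := ((b : Ker (co phi i0)) : L) with hbb
  have hD0 := hK.rn.D0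
  have hDS := hK.rn.DS
  have hld0 : ((ld e0 1 : (RO ℤ)ˣ) : RO ℤ) = LaurentPolynomial.T 1 * (e0 : RO ℤ) := KE.ld_val e0 1
  have hld1 : ((ld e1 1 : (RO ℤ)ˣ) : RO ℤ) = LaurentPolynomial.T 1 * (e1 : RO ℤ) := KE.ld_val e1 1
  have hV0 : (vB phi D S0 e0 i0 h0).coeff 0 +
      ((ld e1 1 : (RO ℤ)ˣ) : RO ℤ) * (vB phi D S0 e0 i0 h0).coeff T =
      toLaurent ((1 + X) ^ 2 * f - X * E) := by
    rw [hD0, hld1, ← hVp, map_add toLaurent (q + X * f), map_mul toLaurent X, toLaurent_X, ← hDS]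
    ring
  have hA0 : (vB phi D S0 e0 i0 h0).coeff 0 +
      ((-e1 : (RO ℤ)ˣ) : RO ℤ) * (vB phi D S0 e0 i0 h0).coeff T =
      -(LaurentPolynomial.T 1 * toLaurent E) := by
    have h2 : q + X * f - (1 + X) * f = -(X * E) := by
      rw [← hE]
      ring
    have h3 := congrArg (toLaurent : ℤ[X] → RO ℤ) h2
    rw [map_sub, map_neg, map_mul toLaurent X, toLaurent_X, ← hDS] at h3
    rw [hD0, Units.val_neg, ← h3]
    ring
  have relA := rel hQra hC0 hB5 fd sp' hj hX (-e1)
  have relB := rel hQra hC0 hB5 fd sp' hj hX (ld e1 1)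
  have hcoe0 : ((0 : Ker (co (phO phi S0 i0) i1)) : Ker (co phi i0)) = 0 := rfl
  have hcl0 : ∀ eta' : (RO ℤ)ˣ,
      (cl (co (phO phi S0 i0) i1) T h1 eta' (vB phi D S0 e0 i0 h0)).coeff 0 =
        (vB phi D S0 e0 i0 h0).coeff 0 + (eta' : RO ℤ) * (vB phi D S0 e0 i0 h0).coeff T := by
    intro eta'
    rw [H47.cl_coeff_bin _ _ _ _ _ (fun a ha => hK.dd.bin a ha i1) 0, hcoe0, zero_add]
  rw [hcl0, hV0, vv_coeff dd hK.dd hK.hT, hA0, neg_mul_inv_ld, sub_neg_eq_add, ← hbb] at relA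
  rw [hcl0, hV0, vv_coeff dd hK.dd hK.hT, Units.mul_inv, sub_self, zero_mul, ← hbb] at relB
  have hVne : (toLaurent ((1 + X) ^ 2 * f - X * E) : RO ℤ) ≠ 0 := by
    intro h2
    have h3 : (1 + X) ^ 2 * f - X * E = 0 := by
      apply toLaurent_injective
      rw [h2, map_zero]
    rw [h3, coeff_zero] at hVz
    exact zero_ne_one hVz
  -- an exponent of the class
  obtain ⟨s, t, hs, ht, hst⟩ : ∃ s t : ℕ, s ≤ 1 ∧ t ≤ 1 ∧
      D.coeff (bb + s • S0 + t • S1) ≠ 0 := by
    by_contra hcon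
    push Not at hcon
    have c0 := hcon 0 0 (by norm_num) (by norm_num)
    have c1 := hcon 1 0 (by norm_num) (by norm_num)
    have c2 := hcon 0 1 (by norm_num) (by norm_num)
    have c3 := hcon 1 1 (by norm_num) (by norm_num)
    simp only [zero_smul, one_smul, add_zero] at c0 c1 c2 c3
    rw [c0, c1, c2, c3] at relB
    apply hVne
    simpa using relB
  have hEne : (aeval w E : ℂ) ≠ 0 := hK.k.ez w hw.le
  -- values at `w`
  set u : ℂˣ := Units.mk0 w hw00 with hu
  have evL : ∀ r : ℤ[X], evU u (toLaurent r) = aeval w r := by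
    intro r
    rw [evU_toLaurent, OF40.cpz_aeval]
    rfl
  have hmut := hK.k.mt
  rcases hMpa ℤ P L phi D S0 S1 (-e0) (-e1) dd.inj dd.bin hmut _ hst with ⟨-, hone⟩ | ⟨-, hout⟩
  · -- a class with one exponent
    exfalso
    have hone' : ∀ s' t' : ℕ, D.coeff (bb + s' • S0 + t' • S1) ≠ 0 → s' = s ∧ t' = t := by
      intro s' t' h2
      have h3 : bb + s • S0 + t • S1 + ((s' : ℤ) - s) • S0 + ((t' : ℤ) - t) • S1 =
          bb + s' • S0 + t' • S1 := by
        rw [sub_smul, sub_smul, natCast_zsmul, natCast_zsmul, natCast_zsmul, natCast_zsmul]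
        abel
      obtain ⟨h4, h5⟩ := hone _ _ (by rw [h3]; exact h2)
      constructor <;> omega
    have key : ∀ y : RO ℤ, y * (LaurentPolynomial.T 1) ^ t =
        -((-1) ^ t * toLaurent ((1 + X) ^ 2 * f - X * E)) →
        -(LaurentPolynomial.T 1 * toLaurent E) + y =
          (1 + LaurentPolynomial.T (-1)) *
            (fej 1 m * toLaurent ((1 + X) ^ 2 * f - X * E)) → False := by
      intro y hy1 hy2
      have h2 := congrArg (evU u) hy1
      have h3 := congrArg (evU u) hy2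
      rw [map_neg, map_mul, map_mul, evL, hw0, mul_zero, neg_zero, map_pow, evU_T] at h2
      have h4 : evU u y = 0 := by
        rcases mul_eq_zero.mp h2 with h5 | h5
        · exact h5
        · exact absurd h5 (pow_ne_zero _ (zpow_ne_zero _ (Units.ne_zero u)))
      rw [map_add, h4, add_zero, map_neg, map_mul, evL, map_mul, map_mul, evL, hw0, mul_zero,
        mul_zero, evU_T] at h3
      rcases mul_eq_zero.mp (neg_eq_zero.mp h3) with h5 | h5
      · exact zpow_ne_zero _ (Units.ne_zero u) h5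
      · exact hEne h5
    have z0 : ¬ (0 = s ∧ 0 = t) → D.coeff bb = 0 := by
      intro h2
      by_contra h3
      exact h2 (hone' 0 0 (by simpa using h3))
    have z1 : ¬ (1 = s ∧ 0 = t) → D.coeff (bb + S0) = 0 := by
      intro h2
      by_contra h3
      exact h2 (hone' 1 0 (by simpa using h3))
    have z2 : ¬ (0 = s ∧ 1 = t) → D.coeff (bb + S1) = 0 := by
      intro h2
      by_contra h3
      exact h2 (hone' 0 1 (by simpa using h3))
    have z3 : ¬ (1 = s ∧ 1 = t) → D.coeff (bb + S0 + S1) = 0 := by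
      intro h2
      by_contra h3
      exact h2 (hone' 1 1 (by simpa using h3))
    refine key _ ?_ relA
    interval_cases s <;> interval_cases t
    · rw [z1 (by omega), z2 (by omega), z3 (by omega)] at relB ⊢
      linear_combination relB
    · rw [z0 (by omega), z1 (by omega), z3 (by omega)] at relB ⊢
      rw [hld1] at relB
      rw [Units.val_neg]
      linear_combination -relB
    · rw [z0 (by omega), z2 (by omega), z3 (by omega)] at relB ⊢
      linear_combination relB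
    · rw [z0 (by omega), z1 (by omega), z2 (by omega)] at relB ⊢
      rw [hld1] at relB
      rw [Units.val_neg]
      linear_combination -relB
  · -- a class of the normal form
    obtain ⟨a0, s', t', -, -, hoa, heq⟩ := hout
    have ha0 : phi a0 i0 = 0 := by
      rcases hoa i0 with h2 | ⟨h2, -⟩
      · exact h2
      · rw [hp1] at h2
        exact absurd h2 one_ne_zero
    have ha1 : phi a0 i1 = 0 := by
      rcases hoa i1 with h2 | ⟨-, h2⟩
      · exact h2
      · rw [hp4] at h2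
        exact absurd h2 one_ne_zero
    have hv0 : phi (bb + s • S0 + t • S1) i0 = phi (a0 + s' • S0 + t' • S1) i0 := by rw [heq]
    have hv1 : phi (bb + s • S0 + t • S1) i1 = phi (a0 + s' • S0 + t' • S1) i1 := by rw [heq]
    simp only [map_add, map_nsmul, Pi.add_apply, Pi.smul_apply, hp1, hp2, hp3, hp4, hb0, hb1,
      ha0, ha1, smul_zero, add_zero, zero_add] at hv0 hv1
    have hs' : s = s' := by
      rw [nsmul_eq_mul, nsmul_eq_mul, mul_one, mul_one] at hv0
      exact_mod_cast hv0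
    have ht' : t = t' := by
      rw [nsmul_eq_mul, nsmul_eq_mul, mul_one, mul_one] at hv1
      exact_mod_cast hv1
    subst hs' ht'
    have hba : bb = a0 := by
      have h2 : bb + (s • S0 + t • S1) = a0 + (s • S0 + t • S1) := by
        rw [← add_assoc, ← add_assoc]
        exact heq
      exact add_right_cancel h2
    have hob : Out phi S0 S1 bb := by
      rw [hba]
      exact hoa
    obtain ⟨i, k, pp, r, hnf, -⟩ := hMnf ℤ P L phi D S0 S1 (-e0) (-e1) dd.inj dd.bin hmut bb hob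
    have hbin := dd.bin _ hst
    refine ⟨m, i, k, pp, r, hm, ?_, ?_, hob, hnf, ?_, ?_, w, hw, hw0⟩
    · intro i'
      rcases hob i' with h2 | ⟨h2, h3⟩
      · exact Or.inl h2
      · have h4 := hbin i'
        rw [map_add, map_add, map_nsmul, map_nsmul, Pi.add_apply, Pi.add_apply, Pi.smul_apply,
          Pi.smul_apply, h2, h3, smul_zero, smul_zero, add_zero, add_zero] at h4
        exact h4
    · intro h2
      have h3 : (if phi S0 j' = 0 then phi ((b : Ker (co phi i0)) : L) j' else 0) = 1 := sp'.bj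
      rw [← hbb, h2, map_zero, Pi.zero_apply, ite_self] at h3
      exact zero_ne_one h3
    · obtain ⟨hi, hk, c00, c10, c01, c11⟩ := hnf
      rw [hld0, Units.val_neg] at relA
      rw [Units.val_neg] at c10 c01 c11
      rw [Units.val_neg] at c11
      generalize (toLaurent ((1 + X) ^ 2 * f - X * E) : RO ℤ) = Vp at relA ⊢
      interval_cases i <;> interval_cases k <;>
        simp only [and_self, and_true, true_and, and_false, false_and, if_true, if_false,
          one_ne_zero, zero_ne_one, pow_zero, pow_one, mul_one] at c00 c10 c01 c11 ⊢ <;>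
        linear_combination relA - (e : RO ℤ) * c00 + (e : RO ℤ) * LaurentPolynomial.T 1 * c10 -
          (e : RO ℤ) * c01 + (e : RO ℤ) * LaurentPolynomial.T 1 * c11
    · obtain ⟨hi, hk, c00, c10, c01, c11⟩ := hnf
      rw [hld0, hld1] at relB
      rw [Units.val_neg] at c10 c01 c11
      rw [Units.val_neg] at c11
      generalize (toLaurent ((1 + X) ^ 2 * f - X * E) : RO ℤ) = Vp at relB ⊢
      interval_cases i <;> interval_cases k <;>
        simp only [and_self, and_true, true_and, and_false, false_and, if_true, if_false,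
          one_ne_zero, zero_ne_one, pow_zero, pow_one, mul_one] at c00 c10 c01 c11 ⊢ <;>
        linear_combination relB - (e : RO ℤ) * c00 + (e : RO ℤ) * LaurentPolynomial.T 1 * c10 +
          (e : RO ℤ) * LaurentPolynomial.T 1 * c01 -
          (e : RO ℤ) * LaurentPolynomial.T 1 * LaurentPolynomial.T 1 * c11

end Pool.Agent.B5.O4H21
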