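import Pool.Agent.Lib.MP_b5021c_nt.IfaceO4V
import Pool.Agent.Lib.MP_b5021c_nt.OF.H29.Of1
import Pool.Agent.Lib.MP_b5021c_nt.OF.H40.Dat
import Pool.Agent.Lib.MP_b5021c_nt.E.H19.Tsf
import Pool.Agent.Lib.MP_b5021c_nt.H47.Mut

/-!
# MP_b5021c_nt, all `θ`, K ODD, (O1-iv): the mass of a small factor at a B-load with a big factor is
a Fejér kernel; the relations of the constant coefficients
-/

namespace Pool.Agent.B5.O4H21

open scoped LaurentPolynomial
open Polynomial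
open Pool.Agent.MP_b5021c_nt (nz)

set_option linter.unusedSectionVars false

section

variable {P L : Type} [Fintype P] [DecidableEq P] [AddCommGroup L] [Module.Free ℤ L]
  [Module.Finite ℤ L] {phi : L →+ (P → ℤ)} {D : AO ℤ L} {S : L} {i0 : P} {eta : (RO ℤ)ˣ}
  {h : co phi i0 S = 1} {c : RO ℤ} {n : ℕ} {G : Fin n → AO ℤ (Ker (co phi i0))}

/-- A big factor and class `P`: `M c = 1`. -/
theorem Mc_one (hE1 : E1S) (hMm : MmulS) (hMV : MVS) (fd : FD phi D S i0 eta h c n G) {θ' : ℝ}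
    (hP' : ClassP θ' (D.coeff 0 + (eta : RO ℤ) * D.coeff S))
    (hex : ∃ i, 1 < M ((G i).coeff 0)) : M c = 1 := by
  classical
  obtain ⟨mm1, mm2, -⟩ := hMm ℤ
  obtain ⟨mv1, mv2⟩ := hMV ℤ
  obtain ⟨-, e12⟩ := hE1 ℤ
  have hG0 : ∀ i, (G i).coeff 0 ≠ 0 := fun i => (fd.st i).1
  have hP2 : ClassP θ' (c * ∏ i, (G i).coeff 0) := by
    rw [← fd.v00]
    exact hP'
  obtain ⟨i, hi⟩ := hex
  have hsplit : c * ∏ k, (G k).coeff 0 =
      (G i).coeff 0 * (c * ∏ k ∈ Finset.univ.erase i, (G k).coeff 0) := by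
    rw [← Finset.mul_prod_erase Finset.univ (fun k => (G k).coeff 0) (Finset.mem_univ i)]
    ring
  rw [hsplit] at hP2
  obtain ⟨-, hVr⟩ : ClassP θ' ((G i).coeff 0) ∧
      ClassV 1 (c * ∏ k ∈ Finset.univ.erase i, (G k).coeff 0) := by
    rcases e12 _ _ _ hP2 with h1 | ⟨h1, -⟩
    · exact h1
    · exfalso
      have h2 := (mv1 _ _ h1).2
      linarith
  have hne : ∏ k ∈ Finset.univ.erase i, (G k).coeff 0 ≠ 0 :=
    Finset.prod_ne_zero_iff.mpr fun k _ => hG0 k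
  have hMM : M c * M (∏ k ∈ Finset.univ.erase i, (G k).coeff 0) = 1 := by
    rw [← mm1 _ _ fd.c0 hne]
    exact (mv1 _ _ hVr).2
  have hc1 := mm2 c
  have hr1 := mm2 (∏ k ∈ Finset.univ.erase i, (G k).coeff 0)
  nlinarith

/-- The exponent and the load of a small factor are unique. -/
theorem spt_uniq {l : Fin n} {b b' : Ker (co phi i0)} {j j' : P} {e e' : (RO ℤ)ˣ}
    (sp : Spt phi S i0 G l b j e) (sp' : Spt phi S i0 G l b' j' e') : b' = b ∧ e' = e := by
  classical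
  have hg : (G l).coeff 0 ≠ 0 := sp.u0.ne_zero
  have nz1 : ∀ {x : Ker (co phi i0)} {i : P}, phi (x : L) i = 1 → x ≠ 0 := by
    rintro x i hx rfl
    have h1 : ((0 : Ker (co phi i0)) : L) = 0 := rfl
    rw [h1, map_zero, Pi.zero_apply] at hx
    exact zero_ne_one hx
  have hb : b ≠ 0 := nz1 sp.bj
  have hb' : b' ≠ 0 := nz1 sp'.bj
  have key : ∀ (x y : Ker (co phi i0)) (u : (RO ℤ)ˣ), x ≠ 0 →
      (cst ((G l).coeff 0) * (1 - AddMonoidAlgebra.single y ((u⁻¹ : (RO ℤ)ˣ) : RO ℤ)) :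
        AO ℤ (Ker (co phi i0))).coeff x =
      -((G l).coeff 0 * if y = x then ((u⁻¹ : (RO ℤ)ˣ) : RO ℤ) else 0) := by
    intro x y u hx
    rw [H71.cst_mul_coeff, AddMonoidAlgebra.coeff_sub, Finsupp.sub_apply,
      AddMonoidAlgebra.coeff_single, Finsupp.single_apply, AddMonoidAlgebra.one_def,
      AddMonoidAlgebra.coeff_single, Finsupp.single_apply, if_neg (Ne.symm hx)]
    ring
  have k1 := key b b e hb
  rw [← sp.eq, if_pos rfl] at k1
  have k2 := key b b' e' hb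
  rw [← sp'.eq, k1] at k2
  have hbb : b' = b := by
    by_contra hne
    rw [if_neg hne, mul_zero] at k2
    exact mul_ne_zero hg (Units.ne_zero _) (neg_eq_zero.mp (k2.trans neg_zero))
  refine ⟨hbb, ?_⟩
  rw [if_pos hbb] at k2
  have k3 : ((e⁻¹ : (RO ℤ)ˣ) : RO ℤ) = ((e'⁻¹ : (RO ℤ)ˣ) : RO ℤ) :=
    mul_left_cancel₀ hg (neg_injective k2)
  exact (inv_injective (Units.ext k3)).symm

/-- A small factor with a port outside `S` is in `snp`. -/
theorem spt_snp (hMm : MmulS) {l : Fin n} {b : Ker (co phi i0)} {j : P} {e : (RO ℤ)ˣ}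
    (sp : Spt phi S i0 G l b j e) : l ∈ snp phi S i0 G := by
  classical
  unfold snp
  rw [Finset.mem_filter]
  refine ⟨Finset.mem_univ _, ?_, ?_⟩
  · rw [(hMm ℤ).2.2 _ sp.u0]
    exact lt_irrefl 1
  · intro hp
    have hb0 : b ≠ 0 := by
      rintro rfl
      have h1 := sp.bj
      have h2 : ((0 : Ker (co phi i0)) : L) = 0 := rfl
      rw [h2, map_zero, Pi.zero_apply] at h1
      exact zero_ne_one h1
    have h1 : b ∈ supp (G l) := by
      change (G l).coeff b ≠ 0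
      rw [sp.eq, H71.cst_mul_coeff, AddMonoidAlgebra.coeff_sub, Finsupp.sub_apply,
        AddMonoidAlgebra.coeff_single, Finsupp.single_apply, if_pos rfl, AddMonoidAlgebra.one_def,
        AddMonoidAlgebra.coeff_single, Finsupp.single_apply, if_neg (Ne.symm hb0), zero_sub,
        mul_neg]
      exact neg_ne_zero.mpr (mul_ne_zero sp.u0.ne_zero (Units.ne_zero _))
    have h2 := hp b h1 j sp.jO
    rw [sp.bj] at h2
    exact one_ne_zero h2

/-- THE MASS of a small factor at a B-load with a big factor is a Fejér kernel. -/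
theorem mass_spt (hOd : OdtS) (hQs : QsgS) (hNd : Nd3S) (hTz : TzaS) (hFj : FjtS) (hTa : Ta3S)
    (hE1 : E1S) (hMV : MVS) (hMm : MmulS) {q f : ℤ[X]} {e1 : (RO ℤ)ˣ} {x : ℝ}
    {h : co phi i0 S = 1} (hD : DD phi D) (hS : Ray D S) (hR : RN D S q f e1 x)
    (hf0 : f.coeff 0 = 1) (fd : FD phi D S i0 (ld e1 1) h c n G)
    (hbig : ∃ i, 1 < M ((G i).coeff 0)) {l : Fin n} {b : Ker (co phi i0)} {j : P} {e : (RO ℤ)ˣ}
    (sp : Spt phi S i0 G l b j e) :
    (∃ (j' : P) (hj : co (phK phi (co phi i0)) j' b = 1) (m : ℕ), 1 ≤ m ∧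
      Spt phi S i0 G l b j' e ∧
      Xl phi D i0 b j' hj e = cst (c * (G l).coeff 0 * fej 1 m) * Uo phi i0 j' G l) ∧
    ∃ w : ℂ, ‖w‖ < 1 ∧ (aeval w (q + X * f) : ℂ) = 0 := by
  classical
  obtain ⟨hLD, hq0, hroot, hcP, hD0, hDS, hv0, T', s, W, c1, hP1, hM1⟩ :=
    hOd P L phi D S q f e1 x hD hS hR
  obtain ⟨mm1, mm2, mm3⟩ := hMm ℤ
  have hG0 : ∀ i, (G i).coeff 0 ≠ 0 := fun i => (fd.st i).1
  have hT1 : 1 < |T'| := by
    rcases lt_or_eq_of_le c1.one with h1 | h1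
    · exact h1
    · exfalso
      have h2 := hM1 h1.symm
      obtain ⟨i, hi⟩ := hbig
      have h3 := H56.one_lt_prod hMm Finset.univ (fun k => (G k).coeff 0) hG0 i
        (Finset.mem_univ _) hi
      rw [fd.v00, mm1 _ _ fd.c0 (Finset.prod_ne_zero_iff.mpr fun i _ => hG0 i)] at h2
      have h4 := mm2 c
      nlinarith
  have hP' := hP1 hT1
  have hMc := Mc_one hE1 hMm hMV fd hP' hbig
  have hV : D.coeff 0 + (ld e1 1 : RO ℤ) * D.coeff S =
      LaurentPolynomial.T 0 * toLaurent (q + X * f) := by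
    rw [hD0, hDS, map_add, mul_add]
  refine ⟨?_, ((T'⁻¹ : ℝ) : ℂ), (SFH27.eval_zero c1 hT1).1, ?_⟩
  swap
  · rw [← OF40.cpz_aeval]
    exact (SFH27.eval_zero c1 hT1).2
  obtain ⟨t, ht1, ht2⟩ := hQs ℤ P L phi D S i0 (ld e1 1) h c n G fd hMc 0 (q + X * f) hV
    (SFH27.no_double hNd hLD c1 hT1)
  have hl := spt_snp hMm sp
  have hnn : ∀ k ∈ snp phi S i0 G, NnR (t k) := by
    intro k hk
    obtain ⟨-, -, -, -, -, -, -, -, -, -, -, h1⟩ := ht1 k hk
    exact h1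
  have ht3 : ∀ z : Circle, (∑ k ∈ ({l} : Finset (Fin n)), (evR z (t k)).re) *
      ‖evR z (D.coeff 0 + (ld e1 1 : RO ℤ) * D.coeff S)‖ ^ 2 ≤
      2 * (evR z (D.coeff 0) *
        (starRingEnd ℂ) (evR z (D.coeff 0 + (ld e1 1 : RO ℤ) * D.coeff S))).re -
        ‖evR z (D.coeff 0 + (ld e1 1 : RO ℤ) * D.coeff S)‖ ^ 2 := by
    intro z
    refine le_trans (mul_le_mul_of_nonneg_right ?_ (sq_nonneg _)) (ht2 z)
    exact Finset.sum_le_sum_of_subset_of_nonneg (Finset.singleton_subset_iff.mpr hl)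
      fun k hk _ => (hnn k hk z).2
  have hMass := SFH27.mass_of ({l} : Finset (Fin n)) t hD0 hV ht3
  rw [Finset.sum_singleton] at hMass
  obtain ⟨b', j', e', hj', Q, F, hQ, hQF, hF, hFt, ht0, htn⟩ := ht1 l hl
  obtain ⟨rfl, rfl⟩ := spt_uniq sp hQ.sp
  have hx0 := hR.loc.a0
  have hx1 := hR.loc.a1
  have hinv : 1 < |x⁻¹| := by
    rw [abs_of_pos (inv_pos.mpr hx0)]
    exact (one_lt_inv₀ hx0).mpr hx1
  have hmain : ∃ m : ℕ, 1 ≤ m ∧ F = cst (fej 1 m) := by
    rcases hTz (t l) q f x⁻¹ T' s W hLD c1 hinv (by rw [inv_inv]; exact hroot) hT1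
      (by rw [hf0]; simp) ht0 htn hMass with h1 | ⟨-, h2, hTT, sg, hsg, hsT', h3⟩
    · refine ⟨1, le_refl 1, ?_⟩
      rw [OFH29.fej_one, hTa ℤ _ F hF (by rw [hFt, h1])]
      rfl
    · have hT'0 : 0 < T' := by
        have h4 := inv_pos.mpr hx0
        exact pos_of_mul_pos_right hTT h4.le
      have hsg1 : sg = 1 := by
        rcases hsg with h5 | h5
        · exact h5
        · exfalso
          rw [h5] at hsT'
          push_cast at hsT'
          linarith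
      subst hsg1
      obtain ⟨k, hk⟩ : ∃ k : ℕ, (t l).coeff 0 = k := ⟨((t l).coeff 0).toNat, by omega⟩
      refine ⟨k, by omega, ?_⟩
      apply hFj _ F k 1 hF (by omega) (Or.inl rfl)
      · rw [hFt, hk]
      · rw [hFt, h3, hk]
  obtain ⟨m, hm, hFm⟩ := hmain
  refine ⟨j', hj', m, hm, hQ.sp, ?_⟩
  rw [hQ.xe, hQF, hFm, cst, cst, cst, AddMonoidAlgebra.single_mul_single, add_zero]

end

section

variable {O : Type} [CommRing O] [IsDomain O] [IsPrincipalIdealRing O] [Coef O]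
  {P L : Type} [Fintype P] [DecidableEq P] [AddCommGroup L] [Module.Free ℤ L]
  [Module.Finite ℤ L]

/-- The constant coefficients of another load on `w^b = e`. -/
theorem rel (hQra : QraS) (hC0 : Coeff0S) (hB5 : B5aS) {phi : L →+ (P → ℤ)} {D : AO O L} {S : L}
    {i0 : P} {eta : (RO O)ˣ} {h : co phi i0 S = 1} {c : RO O} {n : ℕ}
    {G : Fin n → AO O (Ker (co phi i0))} (fd : FD phi D S i0 eta h c n G) {l : Fin n}
    {b : Ker (co phi i0)} {j : P} {e : (RO O)ˣ} (sp : Spt phi S i0 G l b j e)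
    (hj : co (phK phi (co phi i0)) j b = 1) {t : RO O}
    (hX : Xl phi D i0 b j hj e = cst (c * (G l).coeff 0 * t) * Uo phi i0 j G l)
    (eta' : (RO O)ˣ) :
    (cl (co phi i0) S h eta' D).coeff 0 + (e : RO O) * (cl (co phi i0) S h eta' D).coeff b =
      (1 - (eta' : RO O) * ((eta⁻¹ : (RO O)ˣ) : RO O)) *
        (t * (D.coeff 0 + (eta : RO O) * D.coeff S)) := by
  classical
  have hcl := hQra O P L phi D S i0 eta h c n G fd l b j e sp hj eta'
  obtain ⟨-, hS0, lam, hlS, hlam⟩ := fd.cc.ray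
  obtain ⟨-, hVpos⟩ := hB5 O L D (co phi i0) S h eta lam hlS hlam
  obtain ⟨lamK, hlamK⟩ : ∃ x, x = lam.comp (incl (Ker (co phi i0))) := ⟨_, rfl⟩
  rw [← hlamK] at hVpos
  have hfa : ∀ i, FullAt lamK (G i) := fun i => fd.full i lamK hVpos
  obtain ⟨hU0, -⟩ := H74.prod_coeff0 hC0 (Finset.univ.erase l)
    (fun i => res (Ker (co (phK phi (co phi i0)) j)) (G i))
    (lamK.comp (incl (Ker (co (phK phi (co phi i0)) j))))
    (fun i _ => H74.pos_res _ _ _ (hfa i).2.1)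
  have hU1 : (Uo phi i0 j G l).coeff 0 = ∏ i ∈ Finset.univ.erase l, (G i).coeff 0 := hU0
  obtain ⟨V', hV'⟩ : ∃ x, x = cl (co phi i0) S h eta' D := ⟨_, rfl⟩
  have hbin : ∀ a ∈ supp V', (co (phK phi (co phi i0)) j) a = 0 ∨
      (co (phK phi (co phi i0)) j) a = 1 := by
    intro a ha
    rw [hV'] at ha
    obtain ⟨a1, ha1, rfl⟩ := H74.supp_cl _ _ _ _ _ a ha
    have h7 : phi S j = 0 := by
      have := sp.jO
      simpa [OO] using this
    have h8 : (co (phK phi (co phi i0)) j) (prj (co phi i0) S h a1) = phi a1 j := by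
      change phi ((prj (co phi i0) S h a1 : Ker (co phi i0)) : L) j = phi a1 j
      rw [prj_coe, map_sub, map_zsmul, Pi.sub_apply, Pi.smul_apply, h7, smul_zero, sub_zero]
    rw [h8]
    exact fd.cc.dd.bin a1 ha1 j
  rw [hX, ← hV'] at hcl
  have h1 := H47.cl_coeff_bin (co (phK phi (co phi i0)) j) b hj e V' hbin 0
  have h0 : ((0 : Ker (co (phK phi (co phi i0)) j)) : Ker (co phi i0)) = 0 := rfl
  rw [h0, zero_add, hcl, H71.cst_mul_coeff, H71.cst_mul_coeff, hU1] at h1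
  rw [← hV', ← h1, fd.v00, ← Finset.mul_prod_erase Finset.univ (fun k => (G k).coeff 0)
    (Finset.mem_univ l)]
  ring

end

end Pool.Agent.B5.O4H21
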